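import Mathlib
import Pool.Agent.H.MP_82263f_pr.A

namespace Pool.Agent.Results.MP_82263f_pr.Cex

open Function

/-- Boltzmann weight `exp (β * number of monochromatic edges)` -/
noncomputable def wt {n q : ℕ} (G : SimpleGraph (Fin n)) (β : ℝ) (σ : Fin n → Fin q) : ℝ :=
  Real.exp (β * {e | e ∈ G.edgeSet ∧ (e.map σ).IsDiag}.ncard)

/-- the Potts measure -/
noncomputable def potts {n q : ℕ} (G : SimpleGraph (Fin n)) (β : ℝ) (σ : Fin n → Fin q) : ℝ :=
  wt G β σ / ∑ τ : Fin n → Fin q, wt G β τ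

/-- heat-bath kernel at the site `v` -/
noncomputable def ker {n q : ℕ} (G : SimpleGraph (Fin n)) (β : ℝ) (v : Fin n)
    (σ τ : Fin n → Fin q) : ℝ :=
  if ∀ u, u ≠ v → τ u = σ u then potts G β τ / ∑ c, potts G β (update σ v c) else 0

/-- law after updating the sites of `l` in order, started from the constant configuration `0` -/
noncomputable def law {n : ℕ} (G : SimpleGraph (Fin n)) (β : ℝ) (l : List (Fin n)) :
    (Fin n → Fin 3) → ℝ :=
  l.foldl (fun μ v τ => ∑ σ, μ σ * ker G β v σ τ) (fun σ => if σ = 0 then 1 else 0)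

/-- total variation distance -/
noncomputable def tv {Ω : Type} (μ ν : Ω → ℝ) : ℝ :=
  ⨆ A : Finset Ω, |∑ x ∈ A, μ x - ∑ x ∈ A, ν x|

open Pool.Agent.H.MP_82263f_pr.A

attribute [local irreducible] Zn ps ng D pack gt

theorem wt_eq (σ : Fin 5 → Fin 3) : wt G0 (Real.log 30) σ = wn (enc σ) := by
  have : {e | e ∈ G0.edgeSet ∧ (e.map σ).IsDiag} = ↑(E.filter fun e => (e.map σ).IsDiag) := by
    ext e
    simp only [G0, SimpleGraph.edgeSet_fromEdgeSet, Set.mem_ofPred_eq, Set.mem_sdiff,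
      Finset.coe_filter, Finset.mem_coe, Sym2.mem_diagSet]
    have : ∀ e ∈ E, ¬ e.IsDiag := by decide
    exact ⟨fun h => ⟨h.1.1, h.2⟩, fun h => ⟨⟨h.1, this e h.1⟩, h.2⟩⟩
  rw [wt, this, Set.ncard_coe_finset, enc_h, mul_comm, Real.exp_nat_mul,
    Real.exp_log (by norm_num), wn]
  simp

theorem potts_eq (σ : Fin 5 → Fin 3) : potts G0 (Real.log 30) σ = wn (enc σ) / Zn := by
  simp only [potts, wt_eq]
  rw [Zn_eq]

theorem step (μ : (Fin 5 → Fin 3) → ℝ) (v : Fin 5) (τ : Fin 5 → Fin 3) :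
    ∑ σ, μ σ * ker G0 (Real.log 30) v σ τ =
      (∑ c, μ (update τ v c)) * wn (enc τ) / zn (enc τ) v := by
  have h1 : ∀ σ, (∀ u, u ≠ v → τ u = σ u) ↔ σ ∈ Finset.univ.image (update τ v) := by
    intro σ
    simp only [Finset.mem_image, Finset.mem_univ, true_and]
    constructor
    · intro h
      refine ⟨σ v, funext fun u => ?_⟩
      by_cases e : u = v
      · subst e; simp
      · simp [e, h u e]
    · rintro ⟨c, rfl⟩ u hu
      simp [hu]
  simp only [ker, h1, mul_ite, mul_zero]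
  rw [Finset.sum_ite_mem, Finset.univ_inter,
    Finset.sum_image (fun a _ b _ h => update_injective τ v h), Finset.sum_mul, Finset.sum_div]
  apply Finset.sum_congr rfl
  intro c _
  simp only [update_idem, potts_eq, enc_up, Fin.sum_univ_three, zn]
  have := Zpos
  have h2 : ∀ s, (0 : ℝ) < wn s := fun s => by unfold wn; positivity
  have := h2 (sd (enc τ) v 0)
  have := h2 (sd (enc τ) v 1)
  have := h2 (sd (enc τ) v 2)
  push_cast
  simp only [Fin.val_zero, Fin.val_one, Fin.val_two]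
  field_simp

theorem run_ok : ∀ (l : List (Fin 5)) (X : ℕ) (k : ℕ → Bool) (S : ℝ) (μ : (Fin 5 → Fin 3) → ℝ),
    run (l.map Fin.val) X k = true → (∀ σ, μ σ * S = gt X (enc σ)) →
    ∃ Y, k Y = true ∧ ∀ σ, l.foldl (fun μ v τ => ∑ σ, μ σ * ker G0 (Real.log 30) v σ τ) μ σ *
      (S * D ^ l.length) = gt Y (enc σ) := by
  intro l
  induction l with
  | nil => intro X k S μ h1 h2; exact ⟨X, h1, by simpa using h2⟩
  | cons v l ih =>
    intro X k S μ h1 h2
    simp only [List.map_cons, run, force_eq, Bool.and_eq_true] at h1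
    obtain ⟨Y, a1, a2⟩ := ih _ k (S * D) (fun τ => ∑ σ, μ σ * ker G0 (Real.log 30) v σ τ) h1.2 (by
      intro τ
      have b := List.all_eq_true.mp h1.1 _ (List.mem_range.mpr (enc_lt τ))
      rw [Nat.beq_eq] at b
      have b' : (gt (pack v X) (enc τ) : ℝ) * zn (enc τ) v = m3 X (enc τ) v * wn (enc τ) * D := by
        exact_mod_cast b
      have z0 : (0 : ℝ) < zn (enc τ) v := by unfold zn wn; positivity
      have c0 := h2 (update τ v 0)
      have c1 := h2 (update τ v 1)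
      have c2 := h2 (update τ v 2)
      rw [enc_up] at c0 c1 c2
      simp only [Fin.val_zero, Fin.val_one, Fin.val_two] at c0 c1 c2
      rw [step, div_mul_eq_mul_div, div_eq_iff z0.ne', b', m3, Fin.sum_univ_three]
      push_cast
      rw [← c0, ← c1, ← c2]
      ring)
    refine ⟨Y, a1, fun σ => ?_⟩
    rw [← a2 σ, List.foldl_cons, List.length_cons, pow_succ]
    ring

theorem cast_sub' (a b : ℕ) : ((a - b : ℕ) : ℝ) = max ((a : ℝ) - b) 0 := by
  rcases le_total a b with h | h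
  · rw [Nat.sub_eq_zero_of_le h, max_eq_right (by simpa using h)]; simp
  · rw [Nat.cast_sub h, max_eq_left (by simpa using h)]

theorem sums (μ : (Fin 5 → Fin 3) → ℝ) (X S : ℕ) (hS : 0 < S)
    (h : ∀ σ, μ σ * S = gt X (enc σ)) :
    (∑ σ, max (μ σ - potts G0 (Real.log 30) σ) 0) * (S * Zn) = ps X S ∧
    (∑ σ, max (potts G0 (Real.log 30) σ - μ σ) 0) * (S * Zn) = ng X S := by
  have z := Zpos
  have s0 : (0 : ℝ) < S := by exact_mod_cast hS
  have p : (0 : ℝ) ≤ S * Zn := by positivity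
  constructor
  · rw [ps_eq, Finset.sum_mul]
    apply Finset.sum_congr rfl
    intro σ _
    rw [cast_sub']
    rw [max_mul_of_nonneg _ _ p, zero_mul, potts_eq]
    push_cast
    rw [← h]
    congr 1
    field_simp
  · rw [ng_eq, Finset.sum_mul]
    apply Finset.sum_congr rfl
    intro σ _
    rw [cast_sub']
    rw [max_mul_of_nonneg _ _ p, zero_mul, potts_eq]
    push_cast
    rw [← h]
    congr 1
    field_simp

theorem tv_le {Ω : Type} [Fintype Ω] (μ ν : Ω → ℝ) :
    tv μ ν ≤ max (∑ x, max (μ x - ν x) 0) (∑ x, max (ν x - μ x) 0) := by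
  apply ciSup_le
  intro A
  rw [abs_le]
  constructor
  · rw [neg_le, neg_sub, ← Finset.sum_sub_distrib]
    refine le_trans ?_ (le_max_right _ _)
    exact (Finset.sum_le_sum fun x _ => le_max_left _ _).trans
      (Finset.sum_le_sum_of_subset_of_nonneg (Finset.subset_univ _) fun x _ _ => le_max_right _ _)
  · rw [← Finset.sum_sub_distrib]
    refine le_trans ?_ (le_max_left _ _)
    exact (Finset.sum_le_sum fun x _ => le_max_left _ _).trans
      (Finset.sum_le_sum_of_subset_of_nonneg (Finset.subset_univ _) fun x _ _ => le_max_right _ _)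

theorem le_tv {Ω : Type} [Fintype Ω] (μ ν : Ω → ℝ) : ∑ x, max (μ x - ν x) 0 ≤ tv μ ν := by
  classical
  refine le_trans ?_ (le_ciSup (Set.finite_range _).bddAbove
    (Finset.univ.filter fun x => ν x ≤ μ x))
  refine le_trans (le_of_eq ?_) (le_abs_self _)
  rw [← Finset.sum_sub_distrib, Finset.sum_filter]
  apply Finset.sum_congr rfl
  intro x _
  split_ifs with h
  · exact max_eq_left (by linarith)
  · exact max_eq_right (by linarith)

theorem result : ∃ (n : ℕ) (G : SimpleGraph (Fin n)) (β : ℝ) (v w : List (Fin n)),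
    0 < β ∧ G.Connected ∧ w.Sublist v ∧ tv (law G β w) (potts G β) < tv (law G β v) (potts G β) := by
  refine ⟨5, G0, Real.log 30, [3, 4, 0, 3, 1, 0, 1, 3, 0, 1], [3, 4, 0, 3, 1, 0, 3, 0, 1],
    Real.log_pos (by norm_num), conn, by decide, ?_⟩
  have h0 : ∀ σ : Fin 5 → Fin 3, (if σ = 0 then 1 else 0 : ℝ) * 1 = gt 1 (enc σ) := by
    intro σ
    rw [enc_0]
    simp
  obtain ⟨X, a1, a2⟩ := run_ok [3, 4, 0, 3, 1, 0, 1, 3, 0, 1] 1 _ 1 _ main h0
  obtain ⟨Y, b1, b2⟩ := run_ok [3, 4, 0, 3, 1, 0, 3, 0, 1] 1 _ 1 _ a1 h0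
  simp only [Bool.and_eq_true, Nat.blt_eq] at b1
  have c1 := sums (law G0 (Real.log 30) [3, 4, 0, 3, 1, 0, 1, 3, 0, 1]) X (D ^ 10)
    (pow_pos d0 _) (fun σ => by rw [← a2 σ, one_mul, Nat.cast_pow]; rfl)
  have c2 := sums (law G0 (Real.log 30) [3, 4, 0, 3, 1, 0, 3, 0, 1]) Y (D ^ 9)
    (pow_pos d0 _) (fun σ => by rw [← b2 σ, one_mul, Nat.cast_pow]; rfl)
  refine lt_of_le_of_lt (tv_le _ _) (lt_of_lt_of_le ?_ (le_tv _ _))
  have e1 : (ps Y (D ^ 9) : ℝ) * D < ps X (D ^ 10) := by exact_mod_cast b1.1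
  have e2 : (ng Y (D ^ 9) : ℝ) * D < ps X (D ^ 10) := by exact_mod_cast b1.2
  have p : (0 : ℝ) < (D ^ 10 : ℕ) * Zn := mul_pos (by exact_mod_cast pow_pos d0 10) Zpos
  have e3 : (((D ^ 9 : ℕ) : ℝ) * Zn) * D = (D ^ 10 : ℕ) * Zn := by push_cast; ring
  rw [← c1.1, ← c2.1, mul_assoc, e3] at e1
  rw [← c1.1, ← c2.2, mul_assoc, e3] at e2
  exact max_lt (lt_of_mul_lt_mul_right e1 p.le) (lt_of_mul_lt_mul_right e2 p.le)

end Pool.Agent.Results.MP_82263f_pr.Cex
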